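import Pool.Agent.WittPrimes.Main

/-!
# Induction of modules from `S` (the span of the `e_n`, `n ≥ -1`) to the Witt algebra

Without the Poincare-Birkhoff-Witt theorem: a module `X` over `U(S)` embeds in a module over `U(L)`.
-/

namespace PRI19
open Pool.WittPrimes

attribute [local instance 100] LieRing.ofAssociativeRing

section abstract

variable {k X : Type*} [Field k] [AddCommGroup X] [Module k X] (a : ℤ → Module.End k X)

/-- put the letter `j` (that is `e_{-2-j}`) in front -/
noncomputable def cm (k X : Type*) [Field k] [AddCommGroup X] [Module k X] (j : ℕ) :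
    (List ℕ →₀ X) →ₗ[k] (List ℕ →₀ X) :=
  Finsupp.lmapDomain X k (List.cons j)

theorem cm_single (j : ℕ) (l : List ℕ) (x : X) :
    cm k X j (Finsupp.single l x) = Finsupp.single (j :: l) x := by
  rw [cm, Finsupp.lmapDomain_apply, Finsupp.mapDomain_single]

theorem cm_nil (j : ℕ) (y : List ℕ →₀ X) : cm k X j y [] = 0 := by
  rw [cm, Finsupp.lmapDomain_apply]
  exact Finsupp.mapDomain_of_notMem_range _ _ (by simp)

/-- the action of `e_n`, `n ≥ -1`, on a word -/
noncomputable def opL : List ℕ → ℤ → (X →ₗ[k] (List ℕ →₀ X))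
  | [], n => (Finsupp.lsingle []).comp (a n)
  | j :: l, n => (((-2 - (j : ℤ) : ℤ) : k) - n) • (if -1 ≤ n + (-2 - (j : ℤ)) then
      opL l (n + (-2 - (j : ℤ))) else Finsupp.lsingle (((j : ℤ) - n).toNat :: l)) +
      (cm k X j).comp (opL l n)

/-- the action of `e_n` -/
noncomputable def Eo (n : ℤ) : (List ℕ →₀ X) →ₗ[k] (List ℕ →₀ X) :=
  if -1 ≤ n then Finsupp.lsum k (fun l => opL a l n) else cm k X (-2 - n).toNat

theorem Eo_single {n : ℤ} (hn : -1 ≤ n) (l : List ℕ) (x : X) :
    Eo a n (Finsupp.single l x) = opL a l n x := by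
  rw [Eo, if_pos hn, Finsupp.lsum_single]

theorem Eo_neg {n : ℤ} (hn : n ≤ -2) : Eo a n = cm k X (-2 - n).toNat := by
  rw [Eo, if_neg (by omega)]

theorem Eo_nil {n : ℤ} (hn : -1 ≤ n) (x : X) :
    Eo a n (Finsupp.single [] x) = Finsupp.single [] (a n x) := by
  rw [Eo_single a hn]
  rfl

theorem Eo_neg_nil {n : ℤ} (hn : n ≤ -2) (y : List ℕ →₀ X) : Eo a n y [] = 0 := by
  rw [Eo_neg a hn, cm_nil]

/-- the mixed relation -/
theorem mixed {n β : ℤ} (hn : -1 ≤ n) (hβ : β ≤ -2) (y : List ℕ →₀ X) :
    Eo a n (Eo a β y) = ((β : k) - n) • Eo a (n + β) y + Eo a β (Eo a n y) := by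
  obtain ⟨j, rfl⟩ : ∃ j : ℕ, β = -2 - (j : ℤ) := ⟨(-2 - β).toNat, by omega⟩
  induction y using Finsupp.induction_linear with
  | zero => simp
  | add y z hy hz => simp only [map_add, smul_add, hy, hz]; abel
  | single l x =>
    have hj : (-2 - (-2 - (j : ℤ))).toNat = j := by omega
    rw [Eo_neg a hβ, hj, cm_single, Eo_single a hn, Eo_single a hn]
    have h1 : opL a (j :: l) n x = (((-2 - (j : ℤ) : ℤ) : k) - n) •
        (if -1 ≤ n + (-2 - (j : ℤ)) then opL a l (n + (-2 - (j : ℤ)))
          else Finsupp.lsingle (((j : ℤ) - n).toNat :: l)) x + cm k X j (opL a l n x) := rfl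
    rw [h1]
    congr 2
    by_cases hc : -1 ≤ n + (-2 - (j : ℤ))
    · rw [if_pos hc, Eo_single a hc]
    · rw [if_neg hc, Eo_neg a (by omega), cm_single]
      have h2 : (-2 - (n + (-2 - (j : ℤ)))).toNat = ((j : ℤ) - n).toNat := by congr 1; ring
      rw [h2]
      rfl

variable (ha : ∀ m n : ℤ, -1 ≤ m → -1 ≤ n → ∀ x, a m (a n x) - a n (a m x) =
  ((n : k) - m) • a (m + n) x)

include ha in
theorem rel_single (l : List ℕ) : ∀ (x : X) (m n : ℤ) (_ : -1 ≤ m) (_ : -1 ≤ n),
    Eo a m (Eo a n (Finsupp.single l x)) - Eo a n (Eo a m (Finsupp.single l x)) =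
      ((n : k) - m) • Eo a (m + n) (Finsupp.single l x) := by
  induction l with
  | nil =>
    intro x m n hm hn
    simp only [Eo_nil a hn, Eo_nil a hm]
    rw [← Finsupp.single_sub, ha m n hm hn]
    by_cases hc : -1 ≤ m + n
    · rw [Eo_nil a hc, Finsupp.smul_single]
    · have hm' : m = -1 := by omega
      have hn' : n = -1 := by omega
      subst hm' hn'
      simp
  | cons j l ih =>
    intro x m n hm hn
    have e0 : (Finsupp.single (j :: l) x : List ℕ →₀ X) =
        Eo a (-2 - (j : ℤ)) (Finsupp.single l x) := by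
      rw [Eo_neg a (by omega), cm_single]
      congr 2
      omega
    rw [e0]
    obtain ⟨β, hβe⟩ : ∃ β : ℤ, β = -2 - (j : ℤ) := ⟨_, rfl⟩
    have hβ : β ≤ -2 := by omega
    rw [← hβe]
    have ih' := ih x
    generalize (Finsupp.single l x : List ℕ →₀ X) = y at ih' ⊢
    have hM : ∀ (n r : ℤ), -1 ≤ n → Eo a n (Eo a r y) =
        ((r : k) - n) • Eo a (n + r) y + Eo a r (Eo a n y) := by
      intro n r hn
      by_cases hr : -1 ≤ r
      · rw [← ih' n r hn hr]; abel
      · exact mixed a hn (by omega) y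
    rw [mixed a hn hβ, mixed a hm hβ, map_add, map_add, map_smul, map_smul, hM m (n + β) hm,
      hM n (m + β) hn, mixed a hm hβ, mixed a hn hβ]
    have h3 := ih' m n hm hn
    have h4 : Eo a β (Eo a m (Eo a n y)) - Eo a β (Eo a n (Eo a m y)) =
        ((n : k) - m) • Eo a β (Eo a (m + n) y) := by
      rw [← map_sub, h3, map_smul]
    have i1 : m + (n + β) = m + n + β := by ring
    have i2 : n + (m + β) = m + n + β := by ring
    rw [i1, i2]
    by_cases hc : -1 ≤ m + n
    · rw [mixed a hc hβ]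
      have h5 : Eo a β (Eo a m (Eo a n y)) = ((n : k) - m) • Eo a β (Eo a (m + n) y) +
          Eo a β (Eo a n (Eo a m y)) := by rw [← h4]; abel
      rw [h5]
      push_cast
      module
    · have hm' : m = -1 := by omega
      have hn' : n = -1 := by omega
      subst hm' hn'
      simp

include ha in
theorem rel_pos {m n : ℤ} (hm : -1 ≤ m) (hn : -1 ≤ n) (y : List ℕ →₀ X) :
    Eo a m (Eo a n y) - Eo a n (Eo a m y) = ((n : k) - m) • Eo a (m + n) y := by
  induction y using Finsupp.induction_linear with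
  | zero => simp
  | add y z hy hz =>
    simp only [map_add, smul_add, ← hy, ← hz]; abel
  | single l x => exact rel_single a ha l x m n hm hn

/-- the submodule of relations between negative letters -/
inductive RR : (List ℕ →₀ X) → Prop
  | zero : RR 0
  | add (y z) : RR y → RR z → RR (y + z)
  | smul (c : k) (y) : RR y → RR (c • y)
  | gen (β γ : ℤ) (y) : β ≤ -2 → γ ≤ -2 →
      RR (Eo a β (Eo a γ y) - Eo a γ (Eo a β y) - ((γ : k) - β) • Eo a (β + γ) y)
  | cons (β : ℤ) (y) : β ≤ -2 → RR y → RR (Eo a β y)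

theorem RR.nil {y : List ℕ →₀ X} (h : RR a y) : y [] = 0 := by
  induction h with
  | zero => rfl
  | add y z _ _ hy hz => rw [Finsupp.add_apply, hy, hz, add_zero]
  | smul c y _ hy => rw [Finsupp.smul_apply, hy, smul_zero]
  | gen β γ y hβ hγ =>
    rw [Finsupp.sub_apply, Finsupp.sub_apply, Finsupp.smul_apply, Eo_neg_nil a hβ, Eo_neg_nil a hγ,
      Eo_neg_nil a (by omega)]
    simp
  | cons β y hβ _ _ => exact Eo_neg_nil a hβ y

theorem RR.comm_neg (r γ : ℤ) (hγ : γ ≤ -2) (y : List ℕ →₀ X) :
    RR a (Eo a r (Eo a γ y) - Eo a γ (Eo a r y) - ((γ : k) - r) • Eo a (r + γ) y) := by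
  by_cases hr : -1 ≤ r
  · have : Eo a r (Eo a γ y) - Eo a γ (Eo a r y) - ((γ : k) - r) • Eo a (r + γ) y = 0 := by
      rw [mixed a hr hγ]; abel
    rw [this]
    exact RR.zero
  · exact RR.gen r γ y (by omega) hγ

theorem RR.stable {y : List ℕ →₀ X} (h : RR a y) : ∀ n : ℤ, RR a (Eo a n y) := by
  induction h with
  | zero => intro n; rw [map_zero]; exact RR.zero
  | add y z _ _ hy hz => intro n; rw [map_add]; exact RR.add _ _ (hy n) (hz n)
  | smul c y _ hy => intro n; rw [map_smul]; exact RR.smul c _ (hy n)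
  | gen β γ y hβ hγ =>
    intro n
    by_cases hn : -1 ≤ n
    · have e : Eo a n (Eo a β (Eo a γ y) - Eo a γ (Eo a β y) - ((γ : k) - β) • Eo a (β + γ) y) =
          (Eo a β (Eo a γ (Eo a n y)) - Eo a γ (Eo a β (Eo a n y)) -
            ((γ : k) - β) • Eo a (β + γ) (Eo a n y)) +
          (((β : k) - n) • (Eo a (n + β) (Eo a γ y) - Eo a γ (Eo a (n + β) y) -
            ((γ : k) - (n + β : ℤ)) • Eo a (n + β + γ) y) +
          (-((γ : k) - n)) • (Eo a (n + γ) (Eo a β y) - Eo a β (Eo a (n + γ) y) -
            ((β : k) - (n + γ : ℤ)) • Eo a (n + γ + β) y)) := by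
        have i1 : n + γ + β = n + β + γ := by ring
        have i2 : n + (β + γ) = n + β + γ := by ring
        rw [map_sub, map_sub, map_smul, mixed a hn hβ, mixed a hn hγ, mixed a hn hγ,
          mixed a hn hβ, mixed a hn (show β + γ ≤ -2 by omega), i1, i2]
        simp only [map_add, map_smul]
        push_cast
        module
      rw [e]
      exact RR.add _ _ (RR.gen β γ _ hβ hγ) (RR.add _ _ (RR.smul _ _ (RR.comm_neg a _ γ hγ y))
        (RR.smul _ _ (RR.comm_neg a _ β hβ y)))
    · exact RR.cons n _ (by omega) (RR.gen β γ y hβ hγ)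
  | cons β y hβ hy ih =>
    intro n
    by_cases hn : -1 ≤ n
    · rw [mixed a hn hβ]
      exact RR.add _ _ (RR.smul _ _ (ih _)) (RR.cons β _ hβ (ih n))
    · exact RR.cons n _ (by omega) (RR.cons β y hβ hy)

/-- the submodule of relations -/
def Rs : Submodule k (List ℕ →₀ X) where
  carrier := {y | RR a y}
  zero_mem' := RR.zero
  add_mem' := fun {y z} hy hz => RR.add y z hy hz
  smul_mem' := fun c y hy => RR.smul c y hy

include ha in
theorem rel_all (m n : ℤ) (y : List ℕ →₀ X) :
    RR a (Eo a m (Eo a n y) - Eo a n (Eo a m y) - ((n : k) - m) • Eo a (m + n) y) := by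
  by_cases hn : -1 ≤ n
  · by_cases hm : -1 ≤ m
    · rw [rel_pos a ha hm hn, sub_self]
      exact RR.zero
    · have e : Eo a m (Eo a n y) - Eo a n (Eo a m y) - ((n : k) - m) • Eo a (m + n) y = 0 := by
        rw [mixed a hn (show m ≤ -2 by omega), add_comm n m]
        module
      rw [e]
      exact RR.zero
  · exact RR.comm_neg a m n (by omega) y

/-- the operators on the quotient -/
noncomputable def Eq' (n : ℤ) : Module.End k ((List ℕ →₀ X) ⧸ (Rs a : Submodule k (List ℕ →₀ X))) :=
  (Rs a).mapQ (Rs a) (Eo a n) (fun _ hy => RR.stable a hy n)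

include ha in
theorem Eq'_rel (m n : ℤ) : Eq' a m * Eq' a n - Eq' a n * Eq' a m =
    ((n : k) - m) • Eq' a (m + n) := by
  apply Submodule.linearMap_qext
  ext1 l
  ext1 x
  change (Rs a).mkQ (Eo a m (Eo a n (Finsupp.single l x))) -
    (Rs a).mkQ (Eo a n (Eo a m (Finsupp.single l x))) =
    ((n : k) - m) • (Rs a).mkQ (Eo a (m + n) (Finsupp.single l x))
  rw [← map_sub, ← map_smul, ← sub_eq_zero, ← map_sub, Submodule.mkQ_apply,
    Submodule.Quotient.mk_eq_zero]
  exact rel_all a ha m n _

end abstract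

section main

variable {k L : Type*} [Field k] [LieRing L] [LieAlgebra k L]
variable (D : WittData k L) (S : LieSubalgebra k L)
    (hS : S.toSubmodule = Submodule.span k (D.b '' {n | -1 ≤ n}))

include D hS in
/-- a proper left ideal of `U(S)` generates a proper left ideal of `U(L)` -/
theorem one_notMem_span (J : Ideal (UniversalEnvelopingAlgebra k S)) (hJ : J ≠ ⊤) :
    (1 : UniversalEnvelopingAlgebra k L) ∉
      Ideal.span (iotaU S '' (J : Set (UniversalEnvelopingAlgebra k S))) := by
  intro h1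
  let X := UniversalEnvelopingAlgebra k S ⧸ J
  let a : ℤ → Module.End k X := fun n => Algebra.lsmul k k X (eS D S hS n)
  have ha0 : ∀ n x, a n x = eS D S hS n • x := fun n x => rfl
  have ha : ∀ m n : ℤ, -1 ≤ m → -1 ≤ n → ∀ x, a m (a n x) - a n (a m x) =
      ((n : k) - m) • a (m + n) x := by
    intro m n hm hn x
    rw [ha0, ha0, ha0, ha0, ha0, smul_smul, smul_smul, ← sub_smul, eS_comm D S hS m n hm hn,
      smul_assoc]
  let φ : UniversalEnvelopingAlgebra k L →ₐ[k] Module.End k ((List ℕ →₀ X) ⧸ Rs a) :=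
    UniversalEnvelopingAlgebra.lift k (lieOfFam D (Eq' a) (Eq'_rel a ha))
  have hφ : ∀ n, φ (UniversalEnvelopingAlgebra.ι k (D.b n)) = Eq' a n := by
    intro n
    change UniversalEnvelopingAlgebra.lift k (lieOfFam D (Eq' a) (Eq'_rel a ha))
      (UniversalEnvelopingAlgebra.ι k (D.b n)) = Eq' a n
    rw [UniversalEnvelopingAlgebra.lift_ι_apply, lieOfFam_b]
  let i0 : X → (List ℕ →₀ X) ⧸ Rs a := fun x => Submodule.Quotient.mk (Finsupp.single [] x)
  have hi0 : ∀ x y, i0 (x + y) = i0 x + i0 y := by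
    intro x y
    change Submodule.Quotient.mk _ = Submodule.Quotient.mk _ + Submodule.Quotient.mk _
    rw [Finsupp.single_add, Submodule.Quotient.mk_add]
  have hi1 : ∀ (c : k) x, i0 (c • x) = c • i0 x := by
    intro c x
    change Submodule.Quotient.mk _ = c • Submodule.Quotient.mk _
    rw [← Finsupp.smul_single, Submodule.Quotient.mk_smul]
  let T : Subalgebra k (UniversalEnvelopingAlgebra k S) :=
    { carrier := {w | ∀ x, φ (iotaU S w) (i0 x) = i0 (w • x)}
      mul_mem' := by
        intro v w hv hw x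
        rw [map_mul, map_mul, Module.End.mul_apply, hw x, hv, mul_smul]
      add_mem' := by
        intro v w hv hw x
        rw [map_add, map_add, LinearMap.add_apply, hw x, hv x, add_smul, hi0]
      algebraMap_mem' := by
        intro c x
        rw [AlgHom.commutes, AlgHom.commutes, Module.algebraMap_end_apply, algebraMap_smul, hi1] }
  have hT : ∀ w, w ∈ T := by
    intro w
    apply eS_induction D S hS T
    intro n hn x
    have e1 : iotaU S (eS D S hS n) = UniversalEnvelopingAlgebra.ι k (D.b n) := by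
      rw [eS_of D S hS hn, iotaU_ι]
    rw [e1, hφ]
    change Submodule.Quotient.mk (Eo a n (Finsupp.single [] x)) =
      Submodule.Quotient.mk (Finsupp.single [] (a n x))
    rw [Eo_nil a hn]
  let x0 : X := Submodule.Quotient.mk 1
  have hker : ∀ u ∈ Ideal.span (iotaU S '' (J : Set (UniversalEnvelopingAlgebra k S))),
      φ u (i0 x0) = 0 := by
    intro u hu
    induction hu using Submodule.span_induction with
    | zero => rw [map_zero, LinearMap.zero_apply]
    | add u v _ _ hu hv => rw [map_add, LinearMap.add_apply, hu, hv, add_zero]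
    | smul c u _ hu => rw [smul_eq_mul, map_mul, Module.End.mul_apply, hu, map_zero]
    | mem u hu =>
      obtain ⟨j, hj, rfl⟩ := hu
      rw [hT j x0]
      have : j • x0 = 0 := by
        change j • (Submodule.Quotient.mk 1 : X) = 0
        rw [← Submodule.Quotient.mk_smul, smul_eq_mul, mul_one]
        exact (Submodule.Quotient.mk_eq_zero J).mpr hj
      rw [this]
      change Submodule.Quotient.mk (Finsupp.single [] 0) = 0
      rw [Finsupp.single_zero]
      rfl
  have h2 := hker 1 h1
  rw [map_one, Module.End.one_apply] at h2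
  have h3 : (Finsupp.single [] x0 : List ℕ →₀ X) ∈ Rs a := (Submodule.Quotient.mk_eq_zero _).mp h2
  have h4 := RR.nil a h3
  rw [Finsupp.single_eq_same] at h4
  have h5 : (1 : UniversalEnvelopingAlgebra k S) ∈ J := (Submodule.Quotient.mk_eq_zero J).mp h4
  exact hJ ((Ideal.eq_top_iff_one J).mpr h5)

include D hS in
/-- the same, in the form used by `PRI98.prim_all` -/
theorem proper (M : Ideal (UniversalEnvelopingAlgebra k S)) (hM : (1 : _) ∉ M) :
    (1 : UniversalEnvelopingAlgebra k L) ∉
      Ideal.span (iotaU S '' (M : Set (UniversalEnvelopingAlgebra k S))) :=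
  one_notMem_span D S hS M fun h => hM (by rw [h]; trivial)

end main

end PRI19
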